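import Mathlib

namespace Pool.Agent.Results.MP_822856_al.Cones

/-- Positive elements of `ℚ + ℚ α` (when `z` is true, also `0`), under addition. -/
def S (z : Prop) (α : ℝ) : AddSubsemigroup ℝ where
  carrier := {x | (0 < x ∨ (z ∧ x = 0)) ∧ ∃ a b : ℚ, x = a + b * α}
  add_mem' := by
    rintro x y ⟨hx, a, b, hx'⟩ ⟨hy, c, d, hy'⟩
    refine ⟨?_, a + c, b + d, by rw [hx', hy']; push_cast; ring⟩
    rcases hx with hx | ⟨hz, hx⟩ <;> rcases hy with hy | ⟨hz', hy⟩
    · left; linarith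
    · left; linarith
    · left; linarith
    · right; exact ⟨hz, by linarith⟩

/-- Positive rationals (when `z` is true, also `0`), under addition. -/
def Q (z : Prop) : AddSubsemigroup ℚ where
  carrier := {x | 0 < x ∨ (z ∧ x = 0)}
  add_mem' := by
    rintro x y hx hy
    rcases hx with hx | ⟨hz, hx⟩ <;> rcases hy with hy | ⟨hz', hy⟩
    · left; linarith
    · left; linarith
    · left; linarith
    · right; exact ⟨hz, by linarith⟩

def one (z : Prop) (α : ℝ) : S z α := ⟨1, Or.inl one_pos, 1, 0, by simp⟩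

lemma lin {z : Prop} {α : ℝ} (f : S z α → ℝ) (hf : ∀ x y, f (x + y) = f x + f y)
    (h0 : ∀ x, 0 ≤ f x) (x : S z α) : f x = f (one z α) * x.val := by
  have hmono : ∀ x y : S z α, x.val < y.val → f x ≤ f y := by
    rintro ⟨x, hx, a, b, hx'⟩ ⟨y, hy, c, d, hy'⟩ h
    have hm : y - x ∈ S z α := ⟨Or.inl (sub_pos.mpr h), c - a, d - b, by
      rw [hx', hy']; push_cast; ring⟩
    have := hf ⟨x, hx, a, b, hx'⟩ ⟨y - x, hm⟩
    have e : (⟨x, hx, a, b, hx'⟩ + ⟨y - x, hm⟩ : S z α) = ⟨y, hy, c, d, hy'⟩ :=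
      Subtype.ext (by simp)
    rw [e] at this
    have := h0 ⟨y - x, hm⟩
    linarith
  have hn : ∀ (n : ℕ) (x y : S z α), y.val = (n + 1) * x.val → f y = (n + 1) * f x := by
    intro n
    induction n with
    | zero => intro x y h; rw [show y = x from Subtype.ext (by simpa using h)]; simp
    | succ n ih =>
      rintro ⟨x, hx, a, b, hx'⟩ y h
      have hm : ((n : ℝ) + 1) * x ∈ S z α := by
        refine ⟨?_, (n + 1) * a, (n + 1) * b, by rw [hx']; push_cast; ring⟩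
        rcases hx with hx | ⟨hz, hx⟩
        · left; positivity
        · right; exact ⟨hz, by rw [hx]; simp⟩
      have e : y = ⟨_, hm⟩ + ⟨x, hx, a, b, hx'⟩ := Subtype.ext (by
        rw [h]; push_cast; ring)
      rw [e, hf, ih ⟨x, hx, a, b, hx'⟩ ⟨_, hm⟩ rfl]; push_cast; ring
  have key : ∀ (m n : ℕ) (x : S z α), (((n : ℝ) + 1) * x.val < m + 1 →
      (n + 1) * f x ≤ (m + 1) * f (one z α)) ∧ ((m : ℝ) + 1 < (n + 1) * x.val →
      (m + 1) * f (one z α) ≤ (n + 1) * f x) := by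
    rintro m n ⟨x, hx, a, b, hx'⟩
    have hm : ((n : ℝ) + 1) * x ∈ S z α := by
      refine ⟨?_, (n + 1) * a, (n + 1) * b, by rw [hx']; push_cast; ring⟩
      rcases hx with hx | ⟨hz, hx⟩
      · left; positivity
      · right; exact ⟨hz, by rw [hx]; simp⟩
    have hm' : ((m : ℝ) + 1) ∈ S z α := ⟨Or.inl (by positivity), m + 1, 0, by push_cast; ring⟩
    have e1 := hn n ⟨x, hx, a, b, hx'⟩ ⟨_, hm⟩ rfl
    have e2 := hn m (one z α) ⟨_, hm'⟩ (by simp [one])
    exact ⟨fun h => by rw [← e1, ← e2]; exact hmono _ _ h,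
      fun h => by rw [← e1, ← e2]; exact hmono _ _ h⟩
  have hq : ∀ q : ℚ, 0 < q → ∃ m n : ℕ, (q : ℝ) * (n + 1) = m + 1 := by
    intro q hq
    have h1 : 0 < q.num := Rat.num_pos.mpr hq
    refine ⟨q.num.toNat - 1, q.den - 1, ?_⟩
    have h2 : ((q.den - 1 : ℕ) : ℝ) + 1 = q.den := by
      rw [Nat.cast_sub q.pos]; simp
    have h3 : ((q.num.toNat - 1 : ℕ) : ℝ) + 1 = q.num := by
      have : ((q.num.toNat - 1 : ℕ) : ℤ) + 1 = q.num := by omega
      exact_mod_cast this
    rw [h2, h3]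
    exact_mod_cast Rat.mul_den_eq_num q
  have hx0 : 0 ≤ x.val := by
    rcases x.2.1 with h | ⟨-, h⟩
    · exact h.le
    · exact h.ge
  set c := f (one z α) with hc
  have hc0 : 0 ≤ c := h0 _
  have up : ∀ q : ℚ, x.val < q → f x ≤ q * c := by
    intro q h
    obtain ⟨m, n, e⟩ := hq q (by have : (0 : ℝ) < q := by linarith
                                 exact_mod_cast this)
    have hn0 : (0 : ℝ) < n + 1 := by positivity
    have := (key m n x).1 (by rw [← e]; nlinarith)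
    rw [← e] at this
    nlinarith
  have lo : ∀ q : ℚ, (q : ℝ) < x.val → q * c ≤ f x := by
    intro q h
    by_cases hq0 : 0 < q
    · obtain ⟨m, n, e⟩ := hq q hq0
      have hn0 : (0 : ℝ) < n + 1 := by positivity
      have := (key m n x).2 (by rw [← e]; nlinarith)
      rw [← e] at this
      nlinarith
    · have : (q : ℝ) ≤ 0 := by exact_mod_cast not_lt.mp hq0
      have := h0 x
      nlinarith
  rcases hc0.eq_or_lt with h | h
  · obtain ⟨q, hq⟩ := exists_rat_gt x.val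
    have := up q hq
    have := h0 x
    rw [← h] at *
    linarith
  · apply le_antisymm
    · by_contra hlt
      obtain ⟨q, h1, h2⟩ := exists_rat_btwn (show x.val < f x / c by
        rw [lt_div_iff₀ h]; linarith)
      have := up q h1
      rw [lt_div_iff₀ h] at h2
      linarith
    · by_contra hlt
      obtain ⟨q, h1, h2⟩ := exists_rat_btwn (show f x / c < x.val by
        rw [div_lt_iff₀ h]; linarith)
      have := lo q h2
      rw [div_lt_iff₀ h] at h1
      linarith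

lemma nonneg {z : Prop} {α : ℝ} (x : S z α) : 0 ≤ x.val := by
  rcases x.2.1 with h | ⟨-, h⟩
  · exact h.le
  · exact h.ge

lemma smul_mem {z : Prop} {α : ℝ} (q : Q z) (x : S z α) : (q.val : ℝ) * x.val ∈ S z α := by
  obtain ⟨x, hx, a, b, hx'⟩ := x
  obtain ⟨q, hq⟩ := q
  refine ⟨?_, q * a, q * b, by simp only [hx']; push_cast; ring⟩
  rcases hq with hq | ⟨hz, hq⟩
  · rcases hx with hx | ⟨hz, hx⟩
    · left; have : (0 : ℝ) < q := by exact_mod_cast hq
      positivity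
    · right; exact ⟨hz, by simp [hx]⟩
  · right; exact ⟨hz, by simp [hq]⟩

def scal (z : Prop) (α : ℝ) : Q z →ₙ+ (S z α →ₙ+ S z α) where
  toFun q := ⟨fun x => ⟨_, smul_mem q x⟩, fun x y => Subtype.ext (by simp [mul_add])⟩
  map_add' p q := by
    ext x
    simp [add_mul]

theorem cone (z : Prop) (α : ℝ) (hpos : 0 < α)
    (hα : ∀ a b c : ℚ, (a : ℝ) + b * α + c * α ^ 2 = 0 → a = 0 ∧ b = 0 ∧ c = 0) :
    Nonempty ((S z α →ₙ+ S z α) ≃+ Q z) ∧ IsEmpty (S z α ≃+ Q z) ∧
      {β : ℝ | 0 < β ∧ Nonempty (S z β ≃+ S z α)}.Countable := by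
  have hA : α ∈ S z α := ⟨Or.inl hpos, 0, 1, by simp⟩
  refine ⟨⟨(AddEquiv.ofBijective (scal z α) ⟨?_, ?_⟩).symm⟩, ⟨fun e => ?_⟩, ?_⟩
  · intro p q h
    have h1 := congrArg (fun φ : S z α →ₙ+ S z α => (φ (one z α)).val) h
    have h2 : (p.val : ℝ) * 1 = q.val * 1 := h1
    exact Subtype.ext (by exact_mod_cast (by simpa using h2 : (p.val : ℝ) = q.val))
  · intro φ
    have hl := lin (fun x => (φ x).val) (fun x y => by simp) (fun x => nonneg _)
    obtain ⟨h1, a, b, h2⟩ := (φ (one z α)).2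
    obtain ⟨-, c, d, h3⟩ := (φ ⟨α, hA⟩).2
    have h4 := hl ⟨α, hA⟩
    simp only at h4
    have h5 := (hα (-c) (a - d) b (by push_cast; rw [h2, h3] at h4; linear_combination -h4)).2.2
    rw [h5] at h2
    simp only [Rat.cast_zero, zero_mul, add_zero] at h2
    have ha : a ∈ Q z := by
      rw [h2] at h1
      rcases h1 with h1 | ⟨hz, h1⟩
      · left; exact_mod_cast h1
      · right; exact ⟨hz, by exact_mod_cast h1⟩
    refine ⟨⟨a, ha⟩, ?_⟩
    · ext x
      have := hl x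
      rw [h2] at this
      exact this.symm
  · have hl := lin (fun x => ((e x).val : ℝ)) (fun x y => by simp) (fun x => by
      rcases (e x).2 with h | ⟨-, h⟩
      · exact_mod_cast h.le
      · exact_mod_cast h.ge) ⟨α, hA⟩
    simp only at hl
    obtain ⟨h1, h2, -⟩ := hα (-(e ⟨α, hA⟩).val) (e (one z α)).val 0 (by
      push_cast; linear_combination -hl)
    have h3 : e ⟨α, hA⟩ = e (one z α) := Subtype.ext (by rw [h2]; linarith)
    have h4 : α = 1 := congrArg Subtype.val (e.injective h3)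
    have := (hα 1 (-1) 0 (by rw [h4]; simp)).1
    norm_num at this
  · refine (Set.countable_range fun p : ℚ × ℚ × ℚ × ℚ =>
      ((p.2.2.1 : ℝ) + p.2.2.2 * α) / (p.1 + p.2.1 * α)).mono ?_
    rintro β ⟨hβ, ⟨e⟩⟩
    have hB : β ∈ S z β := ⟨Or.inl hβ, 0, 1, by simp⟩
    have hl := lin (fun x => (e x).val) (fun x y => by simp) (fun x => nonneg _)
    obtain ⟨-, a, b, h2⟩ := (e (one z β)).2
    obtain ⟨-, c, d, h3⟩ := (e ⟨β, hB⟩).2
    have h4 := hl ⟨β, hB⟩
    simp only at h4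
    have hne : (e (one z β)).val ≠ 0 := by
      intro h0
      have h5 : (e (one z β + one z β)).val = _ := hl (one z β + one z β)
      have h6 : e (one z β + one z β) = e (one z β) := Subtype.ext (by rw [h5, h0]; simp)
      have h7 := congrArg Subtype.val (e.injective h6)
      simp [one] at h7
    refine ⟨(a, b, c, d), ?_⟩
    simp only
    rw [← h2, ← h3, h4]
    field_simp

lemma indep {α : ℝ} (h : Transcendental ℚ α) (a b c : ℚ)
    (e : (a : ℝ) + b * α + c * α ^ 2 = 0) : a = 0 ∧ b = 0 ∧ c = 0 := by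
  have h1 := (transcendental_iff.mp h)
    (Polynomial.C a + Polynomial.C b * Polynomial.X + Polynomial.C c * Polynomial.X ^ 2)
    (by simpa using e)
  have h0 := congrArg (fun p => Polynomial.coeff p 0) h1
  have h2 := congrArg (fun p => Polynomial.coeff p 1) h1
  have h3 := congrArg (fun p => Polynomial.coeff p 2) h1
  simp [Polynomial.coeff_X, Polynomial.coeff_C, Polynomial.coeff_X_pow] at h0 h2 h3
  exact ⟨h0, h2, h3⟩

lemma family (z : Prop) : ∃ T : Set ℝ, ¬ T.Countable ∧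
    (∀ α ∈ T, Nonempty ((S z α →ₙ+ S z α) ≃+ Q z)) ∧
    T.Pairwise fun α β => IsEmpty (S z α ≃+ S z β) := by
  let U : Set ℝ := {α | 0 < α ∧ Transcendental ℚ α}
  have hU : ¬ U.Countable := by
    intro hc
    have h1 : (Set.Ioi (0 : ℝ)).Countable := by
      refine (hc.union (Algebraic.countable ℚ ℝ)).mono fun x hx => ?_
      by_cases ht : IsAlgebraic ℚ x
      · exact Or.inr ht
      · exact Or.inl ⟨hx, ht⟩
    have h2 := h1.measure_zero MeasureTheory.volume
    simp at h2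
  let r : Setoid U := ⟨fun α β => Nonempty (S z α.val ≃+ S z β.val),
    ⟨fun _ => ⟨AddEquiv.refl _⟩, fun ⟨e⟩ => ⟨e.symm⟩, fun ⟨e⟩ ⟨f⟩ => ⟨e.trans f⟩⟩⟩
  refine ⟨Set.range fun q : Quotient r => q.out.val, fun hc => hU ?_, ?_, ?_⟩
  · refine (hc.biUnion (t := fun α _ => {β : ℝ | 0 < β ∧ Nonempty (S z β ≃+ S z α)}) ?_).mono ?_
    · rintro _ ⟨q, rfl⟩
      exact (cone z _ q.out.2.1 (indep q.out.2.2)).2.2
    · intro x hx
      refine Set.mem_iUnion₂.mpr ⟨_, Set.mem_range_self (Quotient.mk r ⟨x, hx⟩), hx.1, ?_⟩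
      exact r.symm (Quotient.mk_out (s := r) ⟨x, hx⟩)
  · rintro _ ⟨q, rfl⟩
    exact (cone z _ q.out.2.1 (indep q.out.2.2)).1
  · rintro _ ⟨p, rfl⟩ _ ⟨q, rfl⟩ hne
    refine ⟨fun e => hne ?_⟩
    have : p = q := by
      rw [← p.out_eq, ← q.out_eq]
      exact Quotient.sound ⟨e⟩
    rw [this]

theorem result (z : Prop) :
    (∀ α : ℝ, 0 < α →
      (∀ a b c : ℚ, (a : ℝ) + b * α + c * α ^ 2 = 0 → a = 0 ∧ b = 0 ∧ c = 0) →
      Nonempty ((S z α →ₙ+ S z α) ≃+ Q z) ∧ IsEmpty (S z α ≃+ Q z)) ∧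
    ∃ T : Set ℝ, ¬ T.Countable ∧ (∀ α ∈ T, Nonempty ((S z α →ₙ+ S z α) ≃+ Q z)) ∧
      T.Pairwise fun α β => IsEmpty (S z α ≃+ S z β) :=
  ⟨fun α h1 h2 => ⟨(cone z α h1 h2).1, (cone z α h1 h2).2.1⟩, family z⟩

end Pool.Agent.Results.MP_822856_al.Cones
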